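import Pool.Agent.H98.PW.Stmts

/-!
# PW, row PRS: many primes between `X ^ η` and `X ^ (2 η)`
-/

set_option autoImplicit false

namespace Pool.PW

open Finset

theorem prs_log_le {t : ℝ} (ht : 100 ≤ t) : Real.log t ≤ t / 16 := by
  have h1 : Real.log t = 6 * Real.log 2 + Real.log (t / 64) := by
    have e : t = 2 ^ 6 * (t / 64) := by ring
    conv_lhs => rw [e]
    rw [Real.log_mul (by norm_num) (by positivity), Real.log_pow]
    norm_num
  have h2 : Real.log (t / 64) ≤ t / 64 - 1 := Real.log_le_sub_one_of_pos (by positivity)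
  have h3 := Real.log_two_lt_d9
  linarith

theorem prs_card {t : ℝ} (ht : 100 ≤ t) :
    t ≤ (((Finset.Icc ⌈t⌉₊ ⌊t ^ 2⌋₊).filter Nat.Prime).card : ℝ) := by
  have ht0 : 0 < t := by linarith
  have hlog : Real.log t ≤ t / 16 := prs_log_le ht
  have hlog0 : 0 < Real.log t := Real.log_pos (by linarith)
  have h1 := Chebyshev.pi_ge' (x := t ^ 2) (by nlinarith)
  have h2 : ((Nat.primeCounting ⌊t ^ 2⌋₊ : ℕ) : ℝ) ≤
      (((Finset.Icc ⌈t⌉₊ ⌊t ^ 2⌋₊).filter Nat.Prime).card : ℝ) + (t + 1) := by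
    have h3 : Nat.primeCounting ⌊t ^ 2⌋₊ = (Nat.primesLE ⌊t ^ 2⌋₊).card := by simp
    have h4 : Nat.primesLE ⌊t ^ 2⌋₊ ⊆
        ((Finset.Icc ⌈t⌉₊ ⌊t ^ 2⌋₊).filter Nat.Prime) ∪ Finset.range ⌈t⌉₊ := by
      intro p hp
      rw [Nat.mem_primesLE] at hp
      rw [Finset.mem_union, Finset.mem_filter, Finset.mem_Icc, Finset.mem_range]
      rcases lt_or_ge p ⌈t⌉₊ with h | h
      · exact Or.inr h
      · exact Or.inl ⟨⟨h, hp.1⟩, hp.2⟩
    have h5 := (Finset.card_le_card h4).trans (Finset.card_union_le _ _)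
    rw [Finset.card_range] at h5
    have h6 : ((⌈t⌉₊ : ℕ) : ℝ) < t + 1 := Nat.ceil_lt_add_one ht0.le
    have h7 : ((Nat.primesLE ⌊t ^ 2⌋₊).card : ℝ) ≤
        (((Finset.Icc ⌈t⌉₊ ⌊t ^ 2⌋₊).filter Nat.Prime).card : ℝ) + (⌈t⌉₊ : ℝ) := by
      exact_mod_cast h5
    rw [h3]
    linarith
  have h8 : 2 * t + 1 ≤ ((t ^ 2 - 1) * Real.log 2 - Real.log (t ^ 2 + 2)) / Real.log (t ^ 2) := by
    have e : Real.log (t ^ 2) = 2 * Real.log t := by rw [Real.log_pow]; norm_num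
    rw [e, le_div_iff₀ (by positivity)]
    have h9 : Real.log (t ^ 2 + 2) ≤ t := by
      have h10 : Real.log (t ^ 2 + 2) ≤ Real.log (2 * t ^ 2) :=
        Real.log_le_log (by positivity) (by nlinarith)
      rw [Real.log_mul (by norm_num) (by positivity), e] at h10
      have h11 := Real.log_two_lt_d9
      linarith
    have h12 := Real.log_two_gt_d9
    have h13 : (2 * t + 1) * (2 * Real.log t) ≤ (2 * t + 1) * (t / 8) :=
      mul_le_mul_of_nonneg_left (by linarith) (by linarith)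
    have h14 : (t ^ 2 - 1) * (69 / 100) ≤ (t ^ 2 - 1) * Real.log 2 :=
      mul_le_mul_of_nonneg_left (by linarith) (by nlinarith)
    nlinarith
  linarith

theorem prs_thm : S_PRS := by
  intro η hη hη1
  refine ⟨(100 : ℝ) ^ (1 / η), ?_, ?_⟩
  · have h1 : (100 : ℝ) ^ (1 : ℝ) ≤ (100 : ℝ) ^ (1 / η) := by
      apply Real.rpow_le_rpow_of_exponent_le (by norm_num)
      rw [le_div_iff₀ hη]; linarith
    rw [Real.rpow_one] at h1
    linarith
  · intro X hX
    have hp : (0 : ℝ) < (100 : ℝ) ^ (1 / η) := by positivity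
    have hX0 : 0 < X := lt_of_lt_of_le hp hX
    have ht : 100 ≤ X ^ η := by
      have h1 : ((100 : ℝ) ^ (1 / η)) ^ η ≤ X ^ η := Real.rpow_le_rpow hp.le hX hη.le
      rwa [← Real.rpow_mul (by norm_num), one_div_mul_cancel hη.ne', Real.rpow_one] at h1
    have h2 : X ^ (2 * η) = (X ^ η) ^ 2 := by
      rw [mul_comm, Real.rpow_mul hX0.le, Real.rpow_two]
    refine ⟨(Finset.Icc ⌈X ^ η⌉₊ ⌊(X ^ η) ^ 2⌋₊).filter Nat.Prime, ?_, ?_⟩
    · intro p hp'
      rw [Finset.mem_filter, Finset.mem_Icc] at hp'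
      refine ⟨hp'.2, Nat.ceil_le.mp hp'.1.1, ?_⟩
      rw [h2]
      exact (Nat.le_floor_iff (by positivity)).mp hp'.1.2
    · refine le_trans ?_ (prs_card ht)
      have h3 : X ^ (η / 2) = (X ^ η) ^ ((1 : ℝ) / 2) := by
        rw [← Real.rpow_mul hX0.le]; ring_nf
      rw [h3]
      have h4 : (X ^ η) ^ ((1 : ℝ) / 2) ≤ (X ^ η) ^ (1 : ℝ) :=
        Real.rpow_le_rpow_of_exponent_le (by linarith) (by norm_num)
      rwa [Real.rpow_one] at h4

end Pool.PW
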