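import Pool.Agent.H98.PW.Stmts

/-!
# PW, row SEL: choice of a prime and of a class for large families
-/

set_option autoImplicit false

namespace Pool.PW

open Finset Filter

/-- some prime of `PP` does not divide a small nonzero integer -/
theorem sel_exists {η X : ℝ} (hη : 0 < η) (hX : 1 ≤ X) (hlog : 1 / η < Real.log X)
    (PP : Finset ℕ) (hP : ∀ p ∈ PP, p.Prime ∧ X ^ η ≤ (p : ℝ)) (hc : X ^ (η / 2) ≤ (PP.card : ℝ))
    (a : ℤ) (ha : a ≠ 0) (hl : Real.log |(a : ℝ)| ≤ X ^ (η / 2)) : ∃ p ∈ PP, ¬ (p : ℤ) ∣ a := by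
  by_contra hcon
  push Not at hcon
  have hX0 : 0 < X := by linarith
  have h1 : ∏ p ∈ PP, p ∣ a.natAbs :=
    Finset.prod_primes_dvd _ (fun p hp => Nat.prime_iff.mp (hP p hp).1)
      (fun p hp => Int.natCast_dvd.mp (hcon p hp))
  have h2 : ∏ p ∈ PP, p ≤ a.natAbs := Nat.le_of_dvd (Int.natAbs_pos.mpr ha) h1
  have h3 : ((∏ p ∈ PP, p : ℕ) : ℝ) ≤ |(a : ℝ)| := by
    have h4 : ((∏ p ∈ PP, p : ℕ) : ℝ) ≤ ((a.natAbs : ℕ) : ℝ) := by exact_mod_cast h2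
    rwa [Nat.cast_natAbs, Int.cast_abs] at h4
  have h5 : 0 < ((∏ p ∈ PP, p : ℕ) : ℝ) := by
    have : 0 < ∏ p ∈ PP, p := Finset.prod_pos fun p hp => (hP p hp).1.pos
    exact_mod_cast this
  have h6 : Real.log ((∏ p ∈ PP, p : ℕ) : ℝ) = ∑ p ∈ PP, Real.log (p : ℝ) := by
    push_cast
    rw [Real.log_prod]
    intro p hp
    have := (hP p hp).1.pos
    positivity
  have h7 : ∑ p ∈ PP, (η * Real.log X) ≤ ∑ p ∈ PP, Real.log (p : ℝ) := by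
    apply Finset.sum_le_sum
    intro p hp
    rw [← Real.log_rpow hX0]
    exact Real.log_le_log (Real.rpow_pos_of_pos hX0 _) (hP p hp).2
  rw [Finset.sum_const, nsmul_eq_mul] at h7
  have h8 : Real.log ((∏ p ∈ PP, p : ℕ) : ℝ) ≤ Real.log |(a : ℝ)| := Real.log_le_log h5 h3
  have h9 : 1 < η * Real.log X := by
    rw [div_lt_iff₀ hη] at hlog
    linarith
  have h10 : 0 < X ^ (η / 2) := Real.rpow_pos_of_pos hX0 _
  have h11 : X ^ (η / 2) * (η * Real.log X) ≤ (PP.card : ℝ) * (η * Real.log X) :=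
    mul_le_mul_of_nonneg_right hc (by linarith)
  have h12 : X ^ (η / 2) * 1 < X ^ (η / 2) * (η * Real.log X) :=
    mul_lt_mul_of_pos_left h9 h10
  linarith

theorem sel_level (hCLS : S_CLS) (hPRS : S_PRS) (n : ℕ) {c0 η : ℝ} (hη : 0 < η)
    (hη1 : 2 * η ≤ 1) (hη2 : 2 * η * (n + 1) ≤ c0 / 2) : ∃ X0 : ℝ, ∀ (X : ℝ)
    (T : Finset (Fin n → ℕ)) (N : (Fin n → ℕ) → ℤ), X0 ≤ X → X ^ c0 ≤ (T.card : ℝ) →
    (∀ x ∈ T, N x ≠ 0 ∧ Real.log |(N x : ℝ)| ≤ X ^ (η / 2)) →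
    ∃ (p : ℕ) (T' : Finset (Fin n → ℕ)), T' ⊆ T ∧ X ^ (c0 / 2) ≤ (T'.card : ℝ) ∧ p.Prime ∧
      X ^ η ≤ (p : ℝ) ∧ (p : ℝ) ≤ X ∧
      ∀ x ∈ T', ¬ (p : ℤ) ∣ N x ∧ ∀ y ∈ T', ∀ k, (p : ℤ) ∣ (x k : ℤ) - y k := by
  obtain ⟨X0, hX0, hP⟩ := hPRS η hη (by linarith)
  refine ⟨max X0 (Real.exp (1 / η + 1)), ?_⟩
  intro X T N hX hT hN
  have hX1 : X0 ≤ X := (le_max_left _ _).trans hX
  have hX2 : Real.exp (1 / η + 1) ≤ X := (le_max_right _ _).trans hX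
  have hXpos : 0 < X := by linarith
  have hXone : 1 ≤ X := by linarith
  have hlog : 1 / η < Real.log X := by
    have := Real.log_le_log (Real.exp_pos _) hX2
    rw [Real.log_exp] at this
    linarith
  obtain ⟨PP, hPP, hcard⟩ := hP X hX1
  have hB : ∀ p ∈ PP, 0 < p ∧ p ≤ ⌊X ^ (2 * η)⌋₊ := fun p hp =>
    ⟨(hPP p hp).1.pos, Nat.le_floor (hPP p hp).2.2⟩
  obtain ⟨p, T', hp, hT', hle, hx⟩ := hCLS n ⌊X ^ (2 * η)⌋₊ PP T N hB (fun x hx =>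
    sel_exists hη hXone hlog PP (fun p hp => ⟨(hPP p hp).1, (hPP p hp).2.1⟩) hcard (N x)
      (hN x hx).1 (hN x hx).2)
  have hTpos : 0 < X ^ c0 := Real.rpow_pos_of_pos hXpos _
  have hTne : T.Nonempty := by
    rw [← Finset.card_pos]
    have : (0 : ℝ) < (T.card : ℝ) := lt_of_lt_of_le hTpos hT
    exact_mod_cast this
  have hpP := hp hTne
  refine ⟨p, T', hT', ?_, (hPP p hpP).1, (hPP p hpP).2.1, ?_, hx⟩
  · have h1 : PP.card ≤ ⌊X ^ (2 * η)⌋₊ := by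
      have : PP ⊆ Finset.Icc 1 ⌊X ^ (2 * η)⌋₊ := fun q hq =>
        Finset.mem_Icc.mpr ⟨(hB q hq).1, (hB q hq).2⟩
      simpa using Finset.card_le_card this
    have h2 : ((⌊X ^ (2 * η)⌋₊ : ℕ) : ℝ) ≤ X ^ (2 * η) :=
      Nat.floor_le (Real.rpow_nonneg hXpos.le _)
    have h3 : (T.card : ℝ) ≤ (X ^ (2 * η)) ^ (n + 1) * (T'.card : ℝ) := by
      have h4 : T.card ≤ ⌊X ^ (2 * η)⌋₊ ^ (n + 1) * T'.card := by
        refine hle.trans ?_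
        rw [pow_succ']
        gcongr
      have h5 : (T.card : ℝ) ≤ ((⌊X ^ (2 * η)⌋₊ : ℕ) : ℝ) ^ (n + 1) * (T'.card : ℝ) := by
        exact_mod_cast h4
      refine h5.trans ?_
      gcongr
    have h6 : (X ^ (2 * η)) ^ (n + 1) = X ^ (2 * η * (n + 1)) := by
      rw [Real.rpow_mul hXpos.le (2 * η), ← Real.rpow_natCast]
      push_cast
      rfl
    have h7 : X ^ (2 * η * (n + 1)) ≤ X ^ (c0 / 2) := Real.rpow_le_rpow_of_exponent_le hXone hη2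
    have h8 : X ^ c0 = X ^ (c0 / 2) * X ^ (c0 / 2) := by
      rw [← Real.rpow_add hXpos]; ring_nf
    have h9 : X ^ (c0 / 2) * X ^ (c0 / 2) ≤ X ^ (c0 / 2) * (T'.card : ℝ) := by
      rw [← h8]
      refine hT.trans (h3.trans ?_)
      rw [h6]
      gcongr
    exact le_of_mul_le_mul_left h9 (Real.rpow_pos_of_pos hXpos _)
  · refine (hPP p hpP).2.2.trans ?_
    have := Real.rpow_le_rpow_of_exponent_le hXone hη1
    rwa [Real.rpow_one] at this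

theorem sel_thm (hPRS : S_PRS) (hCLS : S_CLS) : S_SEL := by
  intro U X n T N hX ⟨c0, hc0, hT⟩ hN
  have hn : (0 : ℝ) < 4 * ((n : ℝ) + 1) := by positivity
  obtain ⟨η, hη, hη1, hη2⟩ : ∃ η : ℝ, 0 < η ∧ 2 * η ≤ 1 ∧ 2 * η * (n + 1) ≤ c0 / 2 := by
    refine ⟨min (1 / 2) (c0 / (4 * ((n : ℝ) + 1))), lt_min (by norm_num) (by positivity), ?_, ?_⟩
    · have := min_le_left (1 / 2 : ℝ) (c0 / (4 * ((n : ℝ) + 1)))
      linarith
    · have h1 := min_le_right (1 / 2 : ℝ) (c0 / (4 * ((n : ℝ) + 1)))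
      rw [le_div_iff₀ hn] at h1
      linarith
  obtain ⟨X0, hlev⟩ := sel_level hCLS hPRS n hη hη1 hη2
  have key : ∀ m, ∃ (p : ℕ) (T' : Finset (Fin n → ℕ)), T' ⊆ T m ∧
      (X0 ≤ X m → X m ^ c0 ≤ ((T m).card : ℝ) →
        (∀ x ∈ T m, N m x ≠ 0 ∧ Real.log |(N m x : ℝ)| ≤ X m ^ (η / 2)) →
        X m ^ (c0 / 2) ≤ (T'.card : ℝ) ∧ p.Prime ∧
        X m ^ η ≤ (p : ℝ) ∧ (p : ℝ) ≤ X m ∧
        ∀ x ∈ T', ¬ (p : ℤ) ∣ N m x ∧ ∀ y ∈ T', ∀ k, (p : ℤ) ∣ (x k : ℤ) - y k) := by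
    intro m
    by_cases h : X0 ≤ X m ∧ X m ^ c0 ≤ ((T m).card : ℝ) ∧
        (∀ x ∈ T m, N m x ≠ 0 ∧ Real.log |(N m x : ℝ)| ≤ X m ^ (η / 2))
    · obtain ⟨p, T', h1, h2⟩ := hlev (X m) (T m) (N m) h.1 h.2.1 h.2.2
      exact ⟨p, T', h1, fun _ _ _ => h2⟩
    · exact ⟨0, ∅, Finset.empty_subset _, fun a b c => absurd ⟨a, b, c⟩ h⟩
  choose p T' h1 h2 using key
  have hev := hN (η / 2) (by positivity)
  have hge : ∀ᶠ m in (U : Filter ℕ), X0 ≤ X m := hX.eventually_ge_atTop X0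
  refine ⟨η, p, T', hη, h1, ⟨c0 / 2, by positivity, ?_⟩, ?_⟩
  · filter_upwards [hT, hev, hge] with m a b c
    exact (h2 m c a b).1
  · filter_upwards [hT, hev, hge] with m a b c
    exact (h2 m c a b).2

end Pool.PW
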